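import Pool.Agent.H23.ARZ.Stmts

set_option autoImplicit false

open MeasureTheory Set Filter Topology Complex

namespace Pool.ARZ

theorem det_lmul_C (α : ℂ) : LinearMap.det (Algebra.lmul ℝ ℂ α : ℂ →ₗ[ℝ] ℂ) = ‖α‖ ^ 2 := by
  rw [← Algebra.norm_apply, Algebra.norm_complex_eq, ← Complex.normSq_eq_norm_sq]
  rfl

theorem chv_thm : SChv := by
  intro α β γ hα hβ hγ g
  let T : V →ₗ[ℝ] V := LinearMap.prodMap (Algebra.lmul ℝ ℂ α)
    (LinearMap.prodMap (Algebra.lmul ℝ ℂ β) (Algebra.lmul ℝ ℂ γ))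
  have hT : ∀ w : V, T w = (α * w.1, β * w.2.1, γ * w.2.2) := fun w => rfl
  have hdet : LinearMap.det T = ‖α‖ ^ 2 * ‖β‖ ^ 2 * ‖γ‖ ^ 2 := by
    show LinearMap.det (LinearMap.prodMap (Algebra.lmul ℝ ℂ α)
      (LinearMap.prodMap (Algebra.lmul ℝ ℂ β) (Algebra.lmul ℝ ℂ γ))) = _
    rw [LinearMap.det_prodMap, LinearMap.det_prodMap, det_lmul_C, det_lmul_C, det_lmul_C, mul_assoc]
  have hpos : 0 < ‖α‖ ^ 2 * ‖β‖ ^ 2 * ‖γ‖ ^ 2 := by
    have := norm_pos_iff.2 hα
    have := norm_pos_iff.2 hβ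
    have := norm_pos_iff.2 hγ
    positivity
  have hne : LinearMap.det T ≠ 0 := by rw [hdet]; exact hpos.ne'
  have i1 : (volume : Measure (ℂ × ℂ)).IsAddHaarMeasure :=
    inferInstanceAs ((volume : Measure ℂ).prod (volume : Measure ℂ)).IsAddHaarMeasure
  have i2 : (volume : Measure V).IsAddHaarMeasure :=
    inferInstanceAs ((volume : Measure ℂ).prod (volume : Measure (ℂ × ℂ))).IsAddHaarMeasure
  have hmap : Measure.map T (volume : Measure V)
      = ENNReal.ofReal |(LinearMap.det T)⁻¹| • (volume : Measure V) :=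
    Measure.map_linearMap_addHaar_eq_smul_addHaar volume hne
  let e : V ≃ᵐ V := (T.equivOfDetNeZero hne).toContinuousLinearEquiv.toHomeomorph.toMeasurableEquiv
  have he : ∀ w, e w = T w := fun w => rfl
  have h1 : ∫ w : V, g (T w) = ∫ w, g w ∂(Measure.map T (volume : Measure V)) := by
    have := integral_map_equiv (μ := (volume : Measure V)) e g
    have h2 : (e : V → V) = (T : V → V) := funext he
    rw [h2] at this
    exact this.symm
  have h3 : ∫ w : V, g (α * w.1, β * w.2.1, γ * w.2.2) = ∫ w : V, g (T w) := rfl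
  rw [h3, h1, hmap, integral_smul_measure, ENNReal.toReal_ofReal (abs_nonneg _), hdet,
    abs_of_pos (inv_pos.2 hpos)]
  rw [Complex.real_smul]

end Pool.ARZ
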