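import Pool.Agent.H23.ARZ.Stmts

set_option autoImplicit false

open MeasureTheory Set Filter Topology Complex

namespace Pool.ARZ

/-- `q α u = ‖u‖^α / u` -/
noncomputable def qq (α : ℝ) (u : ℂ) : ℂ := ((‖u‖ ^ α : ℝ) : ℂ) / u

theorem continuous_qq {α : ℝ} (hα : 1 < α) : Continuous (qq α) := by
  rw [continuous_iff_continuousAt]
  intro u
  by_cases hu : u = 0
  · subst hu
    have h0 : qq α 0 = 0 := by simp [qq]
    unfold ContinuousAt
    rw [h0, tendsto_zero_iff_norm_tendsto_zero]
    have hn : ∀ v : ℂ, ‖qq α v‖ = ‖v‖ ^ (α - 1) := by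
      intro v
      unfold qq
      rw [norm_div, Complex.norm_real, Real.norm_of_nonneg (Real.rpow_nonneg (norm_nonneg _) _)]
      by_cases hv : v = 0
      · subst hv
        rw [norm_zero, Real.zero_rpow (by linarith), Real.zero_rpow (by linarith)]
        simp
      · rw [Real.rpow_sub_one (norm_ne_zero_iff.2 hv)]
    simp only [hn]
    have hc : Continuous fun v : ℂ => ‖v‖ ^ (α - 1) :=
      continuous_norm.rpow_const (fun _ => Or.inr (by linarith))
    have := hc.tendsto 0
    rw [norm_zero, Real.zero_rpow (by linarith)] at this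
    exact this
  · refine ContinuousAt.div ?_ continuousAt_id hu
    exact (Complex.continuous_ofReal.comp
      (continuous_norm.rpow_const (fun _ => Or.inr (by linarith)))).continuousAt

theorem con_thm : SCon := by
  intro σ hσ
  have hx : Continuous fun w : V => ‖w.1‖ ^ (10 * σ) :=
    (continuous_fst.norm).rpow_const (fun _ => Or.inr (by linarith))
  have hxz : Continuous fun w : V => ‖w.1 - w.2.2‖ ^ (6 * σ) :=
    ((continuous_fst.sub continuous_snd.snd).norm).rpow_const (fun _ => Or.inr (by linarith))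
  have hy : Continuous fun w : V => ‖w.2.1‖ ^ (4 * σ) :=
    (continuous_snd.fst.norm).rpow_const (fun _ => Or.inr (by linarith))
  have hyz : Continuous fun w : V => ‖w.2.1 - w.2.2‖ ^ (2 * σ) :=
    ((continuous_snd.fst.sub continuous_snd.snd).norm).rpow_const (fun _ => Or.inr (by linarith))
  have hz : Continuous fun w : V => ‖w.2.2‖ ^ (2 * σ) :=
    (continuous_snd.snd.norm).rpow_const (fun _ => Or.inr (by linarith))
  have hq : Continuous (qq (2 * σ)) := continuous_qq (by linarith)
  have hqz : Continuous fun w : V => w.1 * qq (2 * σ) w.2.2 :=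
    continuous_fst.mul (hq.comp continuous_snd.snd)
  have hqyz : Continuous fun w : V => w.2.2 * qq (2 * σ) (w.2.1 - w.2.2) :=
    continuous_snd.snd.mul (hq.comp (continuous_snd.fst.sub continuous_snd.snd))
  have key : ∀ a u : ℂ, ‖u‖ ^ (2 * σ) * (a / u).re = (a * qq (2 * σ) u).re := by
    intro a u
    rw [← Complex.re_ofReal_mul]
    congr 1
    unfold qq
    ring
  refine ⟨?_, ?_, ?_, ?_⟩
  · unfold P
    exact (((hx.mul hxz).mul hy).mul hyz).mul hz
  · have h : (fun w : V => P σ w * hh w) = fun w : V =>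
        ‖w.1‖ ^ (10 * σ) * ‖w.1 - w.2.2‖ ^ (6 * σ) * ‖w.2.1‖ ^ (4 * σ)
          * ‖w.2.1 - w.2.2‖ ^ (2 * σ) * (w.1 * qq (2 * σ) w.2.2).re := by
      funext w
      unfold P hh
      rw [← key]
      ring
    rw [h]
    exact (((hx.mul hxz).mul hy).mul hyz).mul (Complex.continuous_re.comp hqz)
  · have h : (fun w : V => P σ w * (hh w * kk w)) = fun w : V =>
        ‖w.1‖ ^ (10 * σ) * ‖w.1 - w.2.2‖ ^ (6 * σ) * ‖w.2.1‖ ^ (4 * σ)
          * (w.2.2 * qq (2 * σ) (w.2.1 - w.2.2)).re * (w.1 * qq (2 * σ) w.2.2).re := by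
      funext w
      unfold P hh kk
      rw [← key, ← key]
      ring
    rw [h]
    exact (((hx.mul hxz).mul hy).mul (Complex.continuous_re.comp hqyz)).mul
      (Complex.continuous_re.comp hqz)
  · have h : (fun w : V => ((P σ w : ℝ) : ℂ) * (w.1 * (w.1 - w.2.2) / w.2.2)) = fun w : V =>
        ((‖w.1‖ ^ (10 * σ) * ‖w.1 - w.2.2‖ ^ (6 * σ) * ‖w.2.1‖ ^ (4 * σ)
          * ‖w.2.1 - w.2.2‖ ^ (2 * σ) : ℝ) : ℂ) * (w.1 - w.2.2) * (w.1 * qq (2 * σ) w.2.2) := by
      funext w
      unfold P qq
      push_cast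
      ring
    rw [h]
    exact ((Complex.continuous_ofReal.comp (((hx.mul hxz).mul hy).mul hyz)).mul
      (continuous_fst.sub continuous_snd.snd)).mul hqz

end Pool.ARZ
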