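import Pool.Agent.H23.ARZ.Stmts

set_option autoImplicit false

open MeasureTheory Set Filter Topology Complex

namespace Pool.ARZ

theorem pfe_real (σ : ℝ) (w : V) : ‖F w‖ ^ (2 * σ) = P σ w := by
  have hF : ‖F w‖ = ‖w.1‖ ^ 5 * ‖w.1 - w.2.2‖ ^ 3 * ‖w.2.1‖ ^ 2 * ‖w.2.1 - w.2.2‖ * ‖w.2.2‖ := by
    unfold F
    simp only [norm_mul, norm_pow]
  have key : ∀ (a : ℝ) (n : ℕ), 0 ≤ a → (a ^ n) ^ (2 * σ) = a ^ ((n : ℝ) * (2 * σ)) := by
    intro a n ha
    rw [← Real.rpow_natCast, ← Real.rpow_mul ha]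
  rw [hF]
  rw [Real.mul_rpow (by positivity) (by positivity), Real.mul_rpow (by positivity) (by positivity),
    Real.mul_rpow (by positivity) (by positivity), Real.mul_rpow (by positivity) (by positivity),
    key _ 5 (norm_nonneg _), key _ 3 (norm_nonneg _), key _ 2 (norm_nonneg _)]
  unfold P
  have e1 : ((5 : ℕ) : ℝ) * (2 * σ) = 10 * σ := by push_cast; ring
  have e2 : ((3 : ℕ) : ℝ) * (2 * σ) = 6 * σ := by push_cast; ring
  have e3 : ((2 : ℕ) : ℝ) * (2 * σ) = 4 * σ := by push_cast; ring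
  rw [e1, e2, e3]

theorem pfe_thm : SPfe := by
  refine ⟨fun σ w => ?_, pfe_real⟩
  rw [← pfe_real, Complex.ofReal_cpow (norm_nonneg _)]
  push_cast
  rfl

end Pool.ARZ
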